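import Pool.Agent.Helper64.PC.Frc

set_option autoImplicit false

/-! # The name of the generic ultrafilter -/

namespace Pool.Agent.Helper27.PC

open Pool.Agent.Helper46.SP Pool.Agent.Helper94.SP Pool.Agent.Helper64.PC Name Set

section

variable {P : Type} [Preorder P]

/-- every name of a set of natural numbers is densely a ground model set -/
theorem gen_ground (hD : Helper64.PC.Dist P) (X : ℕ → Set P) (p : P) :
    ∃ q ≤ p, ∃ Y : Set ℕ, ∀ i, ∀ s ≤ q, (Fd (X i) s ↔ i ∈ Y) := by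
  classical
  let b : FName P p ℕ Prop :=
    { V := fun i t r => (t ∧ Fd (X i) r) ∨ (¬ t ∧ ∀ s ≤ r, ¬ Fd (X i) s)
      mono := by
        rintro i t r s (⟨h1, h2⟩ | ⟨h1, h2⟩) hs
        · exact Or.inl ⟨h1, h2.mono hs⟩
        · exact Or.inr ⟨h1, fun u hu => h2 u (hu.trans hs)⟩
      total := by
        intro i r _
        by_cases h : ∃ s ≤ r, Fd (X i) s
        · obtain ⟨s, hs, h1⟩ := h
          exact ⟨s, hs, True, Or.inl ⟨trivial, h1⟩⟩
        · exact ⟨r, le_rfl, False, Or.inr ⟨not_false, fun s hs h1 => h ⟨s, hs, h1⟩⟩⟩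
      uniq := by
        rintro i t t' r _ (⟨h1, h2⟩ | ⟨h1, h2⟩) (⟨h3, h4⟩ | ⟨h3, h4⟩)
        · exact propext ⟨fun _ => h3, fun _ => h1⟩
        · exact absurd h2 (h4 r le_rfl)
        · exact absurd h4 (h2 r le_rfl)
        · exact propext ⟨fun h => absurd h h1, fun h => absurd h h3⟩ }
  obtain ⟨q, hq, f, hf⟩ := hD p ℕ Prop b
  refine ⟨q, hq, {i | f i}, fun i s hs => ⟨fun h => ?_, fun h => ?_⟩⟩
  · have h1 : True = f i := hf i True s hs (Or.inl ⟨trivial, h⟩)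
    show f i
    rw [← h1]
    trivial
  · by_contra hn
    have h2 : ∃ u ≤ s, ∀ v ≤ u, ¬ Fd (X i) v := by
      by_contra h3
      apply hn
      refine Fd.dense fun u hu => ?_
      by_contra h4
      exact h3 ⟨u, hu, fun v hv h5 => h4 ⟨v, hv, h5⟩⟩
    obtain ⟨u, hu, h3⟩ := h2
    have h4 : False = f i := hf i False u (hu.trans hs) (Or.inr ⟨not_false, h3⟩)
    rw [h4]
    exact h

/-- equality of canonical names -/
theorem gen_feq [OrderTop P] (X : ℕ → Set P) (Y : Set ℕ) (p : P) :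
    FEq (rho X) (rho fun i => {_r | i ∈ Y}) p ↔ ∀ i, ∀ s ≤ p, (Fd (X i) s ↔ i ∈ Y) := by
  constructor
  · intro h i s hs
    rw [← fmem_num_rho, fmem_iff_of_feq h (num i) hs, fmem_num_rho, fd_const]
  · intro h
    refine feq_ext fun x s hs => ?_
    rw [fmem_rho, fmem_rho]
    constructor
    · intro h1 u hu
      obtain ⟨v, hv, i, hi, hf⟩ := h1 u hu
      exact ⟨v, hv, i, hi, (fd_const _ _).2 ((h i v (hv.trans (hu.trans hs))).1 hf)⟩
    · intro h1 u hu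
      obtain ⟨v, hv, i, hi, hf⟩ := h1 u hu
      exact ⟨v, hv, i, hi, (h i v (hv.trans (hu.trans hs))).2 ((fd_const _ _).1 hf)⟩

theorem gen_mem [OrderTop P] (D : NegData P) (X : ℕ → Set P) (p : P) :
    FMem (rho X) (genF D) p ↔
      ∀ q ≤ p, ∃ r ≤ q, ∃ Y : Set ℕ, (∀ i, ∀ s ≤ r, (Fd (X i) s ↔ i ∈ Y)) ∧ D.U Y r := by
  unfold genF
  rw [fmem_mk]
  constructor
  · intro h q hq
    obtain ⟨r, hr, ⟨⟨Y, a⟩, hU⟩, hra, he⟩ := h q hq
    exact ⟨r, hr, Y, (gen_feq X Y r).1 he, D.mono Y a r hU hra⟩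
  · intro h q hq
    obtain ⟨r, hr, Y, hY, hU⟩ := h q hq
    exact ⟨r, hr, ⟨⟨Y, r⟩, hU⟩, le_rfl, (gen_feq X Y r).2 hY⟩

theorem gen_fd_and (A B : Set P) (p : P) :
    Fd {r | Fd A r ∧ Fd B r} p ↔ Fd A p ∧ Fd B p := by
  refine fd_iff_mem (A := {r | Fd A r ∧ Fd B r})
    (fun q r h hr => ⟨Fd.mono h.1 hr, Fd.mono h.2 hr⟩) fun q h => ?_
  exact ⟨Fd.dense fun r hr => (h r hr).imp fun s hs => ⟨hs.1, hs.2.1⟩,
    Fd.dense fun r hr => (h r hr).imp fun s hs => ⟨hs.1, hs.2.2⟩⟩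

theorem gen_fd_not (A : Set P) (p : P) :
    Fd {r | ∀ s ≤ r, ¬ Fd A s} p ↔ ∀ s ≤ p, ¬ Fd A s := by
  refine fd_iff_mem (A := {r | ∀ s ≤ r, ¬ Fd A s}) (fun q r h hr s hs => h s (hs.trans hr))
    fun q h s hs hA => ?_
  obtain ⟨r, hr, h1⟩ := h s hs
  exact h1 r le_rfl (Fd.mono hA hr)

/-- the complement of a ground model set -/
theorem gen_compl (X : ℕ → Set P) (Y : Set ℕ) (p : P) (h : ∀ i, ∀ s ≤ p, (Fd (X i) s ↔ i ∈ Y)) :
    ∀ i, ∀ s ≤ p, (Fd {r | ∀ s ≤ r, ¬ Fd (X i) s} s ↔ i ∈ Yᶜ) := by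
  intro i s hs
  rw [gen_fd_not]
  constructor
  · intro h1 h2
    exact h1 s le_rfl ((h i s hs).2 h2)
  · intro h1 u hu h2
    exact h1 ((h i u (hu.trans hs)).1 h2)

end

theorem st_gen : ST_gen := by
  intro P _ _ D hD
  refine ⟨gen_mem D, fun p => ⟨?_, ?_, ?_, ?_, ?_, ?_⟩⟩
  · intro s q _ hs x r hr hx
    have h1 := fmem_mono hs hr
    unfold genF at h1
    rw [fmem_mk] at h1
    refine fmem_dense fun u hu => ?_
    obtain ⟨v, hv, ⟨⟨Y, a⟩, hU⟩, hva, he⟩ := h1 u hu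
    have h2 := (fmem_iff_of_feq he x le_rfl).1 (fmem_mono hx (hv.trans hu))
    rw [fmem_rho] at h2
    refine ⟨v, hv, (fmem_omega _ _).2 fun w hw => ?_⟩
    obtain ⟨t, ht, i, hi, -⟩ := h2 w hw
    exact ⟨t, ht, i, hi⟩
  · intro X Y q _ hX hXY
    rw [gen_mem] at hX ⊢
    intro r hr
    obtain ⟨s, hs, Z, hZ, hU⟩ := hX r hr
    obtain ⟨t, ht, Z', hZ'⟩ := gen_ground hD Y s
    refine ⟨t, ht.trans hs, Z', hZ', D.up Z Z' t (fun i hi => ?_) (D.mono Z s t hU ht)⟩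
    exact (hZ' i t le_rfl).1 (hXY i t (ht.trans (hs.trans hr)) ((hZ i t ht).2 hi))
  · intro X Y q _ hX hY
    rw [gen_mem] at hX hY ⊢
    intro r hr
    obtain ⟨s, hs, Z, hZ, hU⟩ := hX r hr
    obtain ⟨t, ht, Z', hZ', hU'⟩ := hY s (hs.trans hr)
    refine ⟨t, ht.trans hs, Z ∩ Z', fun i u hu => ?_, D.inter Z Z' t (D.mono Z s t hU ht) hU'⟩
    rw [gen_fd_and, hZ i u (hu.trans ht), hZ' i u hu]
    exact Iff.rfl
  · intro X q _
    obtain ⟨r, hr, Y, hY⟩ := gen_ground hD X q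
    obtain ⟨s, hs, h⟩ := D.ultra Y r
    refine ⟨s, hs.trans hr, ?_⟩
    rcases h with h | h
    · left
      rw [gen_mem]
      intro t ht
      exact ⟨t, le_rfl, Y, fun i u hu => hY i u (hu.trans (ht.trans hs)), D.mono Y s t h ht⟩
    · right
      rw [gen_mem]
      intro t ht
      exact ⟨t, le_rfl, Yᶜ, gen_compl X Y t fun i u hu => hY i u (hu.trans (ht.trans hs)),
        D.mono Yᶜ s t h ht⟩
  · intro X q _ hX hX'
    rw [gen_mem] at hX hX'
    obtain ⟨r, hr, Y, hY, hU⟩ := hX q le_rfl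
    obtain ⟨s, hs, Y', hY', hU'⟩ := hX' r hr
    have h1 := gen_compl X Y s fun i u hu => hY i u (hu.trans hs)
    have h2 : Y ∩ Y' = ∅ := by
      ext i
      simp only [Set.mem_inter_iff, Set.mem_empty_iff_false, iff_false, not_and]
      intro hi hi'
      exact (h1 i s le_rfl).1 ((hY' i s le_rfl).2 hi') hi
    have h3 := D.inter Y Y' s (D.mono Y r s hU hs) hU'
    rw [h2] at h3
    exact D.empty s h3
  · intro i q _ h
    rw [gen_mem] at h
    obtain ⟨r, _, Y, hY, hU⟩ := h q le_rfl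
    have h1 : Y = {i} := by
      ext j
      rw [← hY j r le_rfl, fd_const]
      exact Iff.rfl
    rw [h1] at hU
    exact D.fin i r hU

end Pool.Agent.Helper27.PC
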