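import Pool.Agent.Helper97.PC.Defs

namespace Helper27.PC

open Helper97.PC

/-- The iteration. -/
theorem ITER : ST_ITER := by
  intro m C h0 h1 h2
  set D : ℝ := max C 0 with hD
  have hD0 : 0 ≤ D := le_max_right _ _
  set K : ℝ := max 1 ((8 * D) ^ 2) with hK
  have hK1 : 1 ≤ K := le_max_left _ _
  have hK2 : 8 * D ≤ Real.sqrt K := by
    apply Real.le_sqrt_of_sq_le
    exact le_max_right _ _
  have hK0 : 0 ≤ K := by linarith
  have key : ∀ n : ℕ, ∀ R : ℝ, 0 < R → R ≤ 2 ^ n → m R ≤ K / R ^ 2 := by
    intro n
    induction n with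
    | zero =>
      intro R hR hR1
      have hR1' : R ≤ 1 := by simpa using hR1
      rw [le_div_iff₀ (by positivity)]
      have := h1 R
      have := h0 R
      have hR2 : R ^ 2 ≤ 1 := by nlinarith
      nlinarith
    | succ n ih =>
      intro R hR hRn
      have hr : 0 < R / 2 := by positivity
      have hr2 : R / 2 ≤ 2 ^ n := by
        have : (2 : ℝ) ^ (n + 1) = 2 * 2 ^ n := by ring
        linarith
      have ih' := ih (R / 2) hr hr2
      have h3 := h2 (R / 2) hr
      have e : 2 * (R / 2) = R := by ring
      rw [e] at h3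
      -- m (R/2) ≤ sqrt (m (R/2))
      have hs0 : 0 ≤ Real.sqrt (m (R / 2)) := Real.sqrt_nonneg _
      have hs : m (R / 2) ≤ Real.sqrt (m (R / 2)) := by
        apply Real.le_sqrt_of_sq_le
        have := h1 (R / 2)
        have := h0 (R / 2)
        nlinarith
      have hs2 : Real.sqrt (m (R / 2)) ≤ Real.sqrt K / (R / 2) := by
        have : Real.sqrt (K / (R / 2) ^ 2) = Real.sqrt K / (R / 2) := by
          rw [Real.sqrt_div hK0, Real.sqrt_sq hr.le]
        rw [← this]
        exact Real.sqrt_le_sqrt ih'
      have h4 : C / (R / 2) * (m (R / 2) + Real.sqrt (m (R / 2)))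
          ≤ D / (R / 2) * (2 * (Real.sqrt K / (R / 2))) := by
        apply mul_le_mul
        · exact div_le_div_of_nonneg_right (le_max_left _ _) hr.le
        · linarith
        · have := h0 (R / 2)
          linarith
        · positivity
      have h5 : D / (R / 2) * (2 * (Real.sqrt K / (R / 2))) = 8 * D * Real.sqrt K / R ^ 2 := by
        field_simp
        ring
      rw [h5] at h4
      have h6 : 8 * D * Real.sqrt K / R ^ 2 ≤ K / R ^ 2 := by
        apply div_le_div_of_nonneg_right _ (by positivity)
        have h7 : Real.sqrt K * Real.sqrt K = K := Real.mul_self_sqrt hK0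
        nlinarith [Real.sqrt_nonneg K]
      linarith
  refine ⟨K, fun R hR => ?_⟩
  obtain ⟨n, hn⟩ := pow_unbounded_of_one_lt R (by norm_num : (1 : ℝ) < 2)
  exact key n R hR hn.le

end Helper27.PC
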