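import Pool.Agent.Helper64.PC.Frc

set_option autoImplicit false

/-! # Deciding parities with a prescribed change -/

namespace Pool.Agent.Helper27.PC

open Pool.Agent.Helper64.PC Set

/-- the points which are decided -/
def ModC {K : Type} (p : Sil K) (ξ : ℕ → ℕ → K) (g : ℕ → ℕ) (η : K) (z : ℕ) : Prop :=
  ∃ j k, k ≤ j ∧ ξ j k = η ∧ z < g j ∧ p.val η z = none

/-- the points which get the value `true` -/
def ModT {K : Type} (p : Sil K) (ξ : ℕ → ℕ → K) (w : ℕ → ℕ → Bool) (η : K) (z : ℕ) : Prop :=
  z = sInf {z | p.val η z = none} ∧ ∃ j k, ξ j k = η ∧ w j k = true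

open Classical in
/-- the modified condition -/
noncomputable def modQ {K : Type} (p : Sil K) (ξ : ℕ → ℕ → K) (g : ℕ → ℕ) (w : ℕ → ℕ → Bool)
    (hξ : ∀ j k j' k', ξ j k = ξ j' k' → j = j' ∧ k = k') : Sil K where
  val η z := if ModC p ξ g η z then some (decide (ModT p ξ w η z)) else p.val η z
  inf η := by
    by_cases h : ∃ j k, ξ j k = η
    · obtain ⟨j, k, rfl⟩ := h
      have h1 : ({z | p.val (ξ j k) z = none} \ (Finset.range (g j) : Set ℕ)).Infinite :=
        (p.inf (ξ j k)).sdiff (Finset.finite_toSet _)
      refine h1.mono ?_
      rintro z ⟨hz, hz'⟩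
      have h2 : ¬ ModC p ξ g (ξ j k) z := by
        rintro ⟨j', k', -, he, hlt, -⟩
        obtain ⟨rfl, rfl⟩ := hξ _ _ _ _ he
        exact hz' (by simpa using hlt)
      rw [Set.mem_ofPred_eq, if_neg h2]
      exact hz
    · refine (p.inf η).mono fun z hz => ?_
      have h2 : ¬ ModC p ξ g η z := by
        rintro ⟨j', k', -, he, -⟩
        exact h ⟨j', k', he⟩
      rw [Set.mem_ofPred_eq, if_neg h2]
      exact hz
  cnt := by
    refine (p.cnt.union (Set.countable_range fun x : ℕ × ℕ => ξ x.1 x.2)).mono ?_
    rintro η ⟨z, hz⟩
    by_cases h : ModC p ξ g η z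
    · right
      obtain ⟨j, k, -, he, -⟩ := h
      exact ⟨(j, k), he⟩
    · left
      rw [if_neg h] at hz
      exact ⟨z, hz⟩

theorem st_mod : ST_mod := by
  classical
  intro K p ξ g w hξ
  refine ⟨modQ p ξ g w hξ, ?_, ?_⟩
  · intro η z b hb
    show (if ModC p ξ g η z then some (decide (ModT p ξ w η z)) else p.val η z) = some b
    have h2 : ¬ ModC p ξ g η z := by
      rintro ⟨j', k', -, -, -, hn⟩
      rw [hb] at hn
      cases hn
    rw [if_neg h2, hb]
  · intro j k hk N hN hz
    obtain ⟨z1, hz1, hz1n⟩ := hz
    have hval : ∀ z, (modQ p ξ g w hξ).val (ξ j k) z =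
        if ModC p ξ g (ξ j k) z then some (decide (ModT p ξ w (ξ j k) z)) else p.val (ξ j k) z :=
      fun z => rfl
    have hC : ∀ z < N, (ModC p ξ g (ξ j k) z ↔ p.val (ξ j k) z = none) := by
      intro z hz
      constructor
      · rintro ⟨_, _, _, _, _, h⟩
        exact h
      · intro h
        exact ⟨j, k, hk, rfl, hz.trans_le hN, h⟩
    refine ⟨?_, ?_⟩
    · intro z hz
      rw [hval]
      by_cases h : ModC p ξ g (ξ j k) z
      · rw [if_pos h]
        simp
      · rw [if_neg h]
        rwa [hC z hz] at h
    · set z0 := sInf {z | p.val (ξ j k) z = none} with hz0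
      have hne : {z | p.val (ξ j k) z = none}.Nonempty := ⟨z1, hz1n⟩
      have h0 : p.val (ξ j k) z0 = none := Nat.sInf_mem hne
      have h0N : z0 < N := (Nat.sInf_le (m := z1) hz1n).trans_lt hz1
      have hT : ∀ z, (ModT p ξ w (ξ j k) z ↔ z = z0 ∧ w j k = true) := by
        intro z
        constructor
        · rintro ⟨h1, j', k', he, hw⟩
          obtain ⟨rfl, rfl⟩ := hξ _ _ _ _ he
          exact ⟨h1, hw⟩
        · rintro ⟨h1, hw⟩
          exact ⟨h1, j, k, rfl, hw⟩
      unfold Sil.par
      have key : (Finset.range N).filter (fun z => (modQ p ξ g w hξ).val (ξ j k) z = some true) =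
          (Finset.range N).filter (fun z => p.val (ξ j k) z = some true) ∪
            (if w j k = true then {z0} else ∅) := by
        ext z
        rw [Finset.mem_union, Finset.mem_filter, Finset.mem_filter, hval]
        by_cases hzN : z ∈ Finset.range N
        · have hzN' := Finset.mem_range.1 hzN
          by_cases hc : ModC p ξ g (ξ j k) z
          · have hn := (hC z hzN').1 hc
            rw [if_pos hc, hn]
            by_cases hw : w j k = true
            · rw [if_pos hw, Finset.mem_singleton]
              simp only [hzN, true_and, Option.some.injEq, decide_eq_true_eq, hT, hw, and_true,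
                reduceCtorEq, false_or, and_false]
            · rw [if_neg hw]
              simp only [hzN, Option.some.injEq, decide_eq_true_eq, hT, hw, and_false,
                reduceCtorEq, false_or, Finset.notMem_empty]
          · have hn : p.val (ξ j k) z ≠ none := fun h => hc ((hC z hzN').2 h)
            rw [if_neg hc]
            constructor
            · intro h
              exact Or.inl h
            · rintro (h | h)
              · exact h
              · exfalso
                by_cases hw : w j k = true
                · rw [if_pos hw, Finset.mem_singleton] at h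
                  exact hn (h ▸ h0)
                · rw [if_neg hw] at h
                  exact absurd h (Finset.notMem_empty _)
        · constructor
          · rintro ⟨h, -⟩
            exact absurd h hzN
          · rintro (⟨h, -⟩ | h)
            · exact absurd h hzN
            · exfalso
              by_cases hw : w j k = true
              · rw [if_pos hw, Finset.mem_singleton] at h
                rw [h] at hzN
                exact hzN (Finset.mem_range.2 h0N)
              · rw [if_neg hw] at h
                exact absurd h (Finset.notMem_empty _)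
      rw [key, Finset.card_union_of_disjoint]
      · by_cases hw : w j k = true
        · rw [if_pos hw, hw, Finset.card_singleton, Nat.bodd_add, Nat.bodd_one]
        · rw [if_neg hw]
          rw [Bool.not_eq_true] at hw
          rw [hw, Finset.card_empty, add_zero, Bool.xor_false]
      · by_cases hw : w j k = true
        · rw [if_pos hw, Finset.disjoint_singleton_right, Finset.mem_filter]
          rintro ⟨-, h⟩
          rw [h0] at h
          cases h
        · rw [if_neg hw]
          exact Finset.disjoint_empty_right _

end Pool.Agent.Helper27.PC
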