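import Pool.Agent.Helper97.PC.Defs

namespace Helper27.PC

open Helper97.PC MeasureTheory

/-- The real inner product of spinors. -/
theorem inner_real_sp (x y : Sp) : inner ℝ x y = (inner ℂ x y).re := by
  simp only [PiLp.inner_apply]
  rw [Complex.re_sum]
  rfl

/-- The abstract lemma: a real linear functional dominated by `‖L x‖` is given by an `L²` spinor. -/
theorem RIESZ : ST_RIESZ := by
  intro X _ _ L g C hg
  have hker : LinearMap.ker L ≤ LinearMap.ker g := by
    intro x hx
    rw [LinearMap.mem_ker] at hx ⊢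
    have := hg x
    rw [hx, norm_zero, mul_zero] at this
    exact abs_nonpos_iff.1 this
  let f0 : LinearMap.range L →ₗ[ℝ] ℝ :=
    ((LinearMap.ker L).liftQ g hker) ∘ₗ L.quotKerEquivRange.symm.toLinearMap
  have hf0 : ∀ x : X, f0 ⟨L x, LinearMap.mem_range_self L x⟩ = g x := by
    intro x
    simp only [f0, LinearMap.comp_apply]
    have : L.quotKerEquivRange.symm.toLinearMap ⟨L x, LinearMap.mem_range_self L x⟩
        = Submodule.Quotient.mk x := by
      change L.quotKerEquivRange.symm _ = _
      rw [LinearEquiv.symm_apply_eq]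
      rfl
    rw [this]
    rfl
  have hb : ∀ v : LinearMap.range L, ‖f0 v‖ ≤ C * ‖v‖ := by
    rintro ⟨v, x, rfl⟩
    rw [hf0 x, Real.norm_eq_abs]
    exact hg x
  let f : LinearMap.range L →L[ℝ] ℝ := f0.mkContinuous C hb
  obtain ⟨G, hG, -⟩ := exists_extension_norm_eq (𝕜 := ℝ) (LinearMap.range L) f
  let η := (InnerProductSpace.toDual ℝ (Lp Sp 2 (volume : Measure R3))).symm G
  refine ⟨η, Lp.memLp η, fun x => ?_⟩
  have h1 : G (L x) = g x := by
    have := hG ⟨L x, LinearMap.mem_range_self L x⟩
    rw [show G (L x) = G ((⟨L x, LinearMap.mem_range_self L x⟩ : LinearMap.range L) : Lp Sp 2 (volume : Measure R3)) from rfl, this]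
    exact hf0 x
  have h2 : inner ℝ η (L x) = G (L x) := by
    simp only [η]
    rw [InnerProductSpace.toDual_symm_apply]
  rw [← h1, ← h2, L2.inner_def]
  refine integral_congr_ae (Filter.Eventually.of_forall fun y => ?_)
  exact inner_real_sp _ _

end Helper27.PC
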